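import Mathlib
import Pool.Agent.H.MP_45e0c4_an.B

open Set Filter Topology

namespace Pool.Agent.Results.MP_45e0c4_an.No

def SuperADP (𝕜 X : Type*) [RCLike 𝕜] [NormedAddCommGroup X] [NormedSpace 𝕜 X] : Prop :=
  ∀ x : X, ‖x‖ = 1 → ∀ U : Set (WeakSpace 𝕜 X), IsOpen U →
    (∃ y : X, ‖y‖ = 1 ∧ toWeakSpace 𝕜 X y ∈ U) →
      IsLUB {r : ℝ | ∃ (y : X) (θ : 𝕜), ‖y‖ ≤ 1 ∧ toWeakSpace 𝕜 X y ∈ U ∧ ‖θ‖ = 1 ∧
        r = ‖x + θ • y‖} 2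

theorem result (𝕜 X : Type*) [RCLike 𝕜] [NormedAddCommGroup X] [NormedSpace 𝕜 X] [CompleteSpace X]
    (e : ℕ → X)
    (hbasis : ∀ x : X, ∃! a : ℕ → 𝕜,
      Tendsto (fun n => ∑ i ∈ Finset.range n, a i • e i) atTop (𝓝 x))
    (hunc : ∀ (a : ℕ → 𝕜) (x : X),
      Tendsto (fun n => ∑ i ∈ Finset.range n, a i • e i) atTop (𝓝 x) → Summable fun i => a i • e i) :
    ¬ SuperADP 𝕜 X := by
  intro H
  refine Pool.Agent.H.MP_45e0c4_an.main (𝕜 := 𝕜) e (fun x => ?_) fun x hx U hU hne r hr => ?_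
  · obtain ⟨a, ha, hu⟩ := hbasis x
    refine ⟨a, ?_, fun b hb => hu b hb.tendsto_sum_nat⟩
    have h := (hunc a x ha).hasSum
    rwa [tendsto_nhds_unique h.tendsto_sum_nat ha] at h
  · obtain ⟨_, ⟨y, θ, y1, y2, t1, rfl⟩, h, -⟩ := (H x hx U hU hne).exists_between hr
    exact ⟨y, y2, y1, θ, t1, h⟩

end Pool.Agent.Results.MP_45e0c4_an.No
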